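import Pool.Agent.K3h53.UG.Stm
import Pool.Agent.H713R3.ZA.TROOT

/-! UG project (helper53, MP_209724_lc): values of exponential polynomials at `R ζ + w` are
holomorphic in `w`; holomorphic roots on convex open sets. Adapted from
`Pool/Agent/K3h43/EX/Hroot.lean`. -/

set_option autoImplicit false

namespace Pool.Agent.K3h53.UG

open MvPolynomial Filter Topology Metric Set Pool.Agent.K3h22.EX

theorem contDiff_eval_pt (s : ℕ) (q : MvPolynomial (Fin s) ℂ) (R : ℝ) (ζ : Fin s → ℂ) :
    ContDiff ℂ 1 fun w : Fin s → ℂ => eval (pt ζ R w) q := by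
  induction q using MvPolynomial.induction_on with
  | C a => simpa using contDiff_const
  | add p q hp hq => simpa using hp.add hq
  | mul_X p i hp =>
    have h1 : ContDiff ℂ 1 fun w : Fin s → ℂ => (R : ℂ) * ζ i + w i :=
      contDiff_const.add (contDiff_apply ℂ ℂ i)
    simpa [pt] using hp.mul h1

theorem contDiff_val (s : ℕ) (β : Type) [Fintype β] (p : β → MvPolynomial (Fin s) ℂ) (c : β → ℂ)
    (G : MvPolynomial β (MvPolynomial (Fin s) ℂ)) (R : ℝ) (ζ : Fin s → ℂ) :
    ContDiff ℂ 1 fun w : Fin s → ℂ => val p c (pt ζ R w) G := by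
  induction G using MvPolynomial.induction_on with
  | C a => simpa [val] using contDiff_eval_pt s a R ζ
  | add p q hp hq => simpa using hp.add hq
  | mul_X q i hp =>
    have h1 : ContDiff ℂ 1 fun w : Fin s → ℂ => Complex.exp (eval (pt ζ R w) (p i) + c i) :=
      ((contDiff_eval_pt s (p i) R ζ).add contDiff_const).cexp
    have h2 := hp.mul h1
    have h3 : (fun w : Fin s → ℂ => val p c (pt ζ R w) (q * X i)) =
        fun w => val p c (pt ζ R w) q * Complex.exp (eval (pt ζ R w) (p i) + c i) := by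
      funext w
      simp [val]
    rw [h3]
    exact h2

theorem continuous_val (s : ℕ) (β : Type) [Fintype β] (p : β → MvPolynomial (Fin s) ℂ) (c : β → ℂ)
    (G : MvPolynomial β (MvPolynomial (Fin s) ℂ)) (R : ℝ) (ζ : Fin s → ℂ) :
    Continuous fun w : Fin s → ℂ => val p c (pt ζ R w) G :=
  (contDiff_val s β p c G R ζ).continuous

theorem differentiable_val (s : ℕ) (β : Type) [Fintype β] (p : β → MvPolynomial (Fin s) ℂ)
    (c : β → ℂ) (G : MvPolynomial β (MvPolynomial (Fin s) ℂ)) (R : ℝ) (ζ : Fin s → ℂ) :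
    Differentiable ℂ fun w : Fin s → ℂ => val p c (pt ζ R w) G :=
  (contDiff_val s β p c G R ζ).differentiable one_ne_zero

theorem differentiable_eval_pt (s : ℕ) (q : MvPolynomial (Fin s) ℂ) (R : ℝ) (ζ : Fin s → ℂ) :
    Differentiable ℂ fun w : Fin s → ℂ => eval (pt ζ R w) q :=
  (contDiff_eval_pt s q R ζ).differentiable one_ne_zero

theorem t_ROOT : S_ROOT := by
  intro s β _ p c f U W Δ hf hUW R ζ Ω hΩ hconv hΔ w₀ hw₀ t₀ ht₀
  have hn : 0 < f.natDegree := by
    rcases Nat.eq_zero_or_pos f.natDegree with h0 | h0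
    · exfalso
      have h1 : f = 1 := (Polynomial.Monic.natDegree_eq_zero hf).mp h0
      rw [h1, Polynomial.map_one, Polynomial.eval_one] at ht₀
      exact one_ne_zero ht₀
    · exact h0
  set F : (Fin s → ℂ) → ℂ → ℂ := fun v x => (f.map (val p c (pt ζ R v))).eval x with hF
  have hFsum : ∀ v x, F v x = ∑ k ∈ Finset.range (f.natDegree + 1),
      val p c (pt ζ R v) (f.coeff k) * x ^ k := by
    intro v x
    simp only [hF]
    rw [Polynomial.eval_map, Polynomial.eval₂_eq_sum_range]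
  have hcd : ContDiff ℂ 1 (fun q : (Fin s → ℂ) × ℂ => F q.1 q.2) := by
    have h1 : ContDiff ℂ 1 (fun q : (Fin s → ℂ) × ℂ => ∑ k ∈ Finset.range (f.natDegree + 1),
      val p c (pt ζ R q.1) (f.coeff k) * q.2 ^ k) := by
      apply ContDiff.sum
      intro k _
      exact ((contDiff_val s β p c (f.coeff k) R ζ).comp contDiff_fst).mul (contDiff_snd.pow k)
    have h2 : (fun q : (Fin s → ℂ) × ℂ => F q.1 q.2) =
        fun q : (Fin s → ℂ) × ℂ => ∑ k ∈ Finset.range (f.natDegree + 1),
          val p c (pt ζ R q.1) (f.coeff k) * q.2 ^ k := by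
      funext q
      exact hFsum q.1 q.2
    rw [h2]
    exact h1
  have hprop : ∀ K : Set (Fin s → ℂ), K ⊆ Ω → IsCompact K → ∀ M : ℝ, ∃ B : ℝ, ∀ v ∈ K, ∀ z,
      ‖F v z‖ ≤ M → ‖z‖ ≤ B := by
    intro K _ hK M
    have hcont : Continuous fun v : Fin s → ℂ => ∑ k ∈ Finset.range f.natDegree,
        ‖val p c (pt ζ R v) (f.coeff k)‖ :=
      continuous_finsetSum _ fun k _ => (contDiff_val s β p c (f.coeff k) R ζ).continuous.norm
    obtain ⟨B0, hB0⟩ := hK.bddAbove_image hcont.continuousOn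
    refine ⟨max 1 (M + B0), ?_⟩
    intro v hv z hz
    rcases le_or_gt ‖z‖ 1 with h | h
    · exact h.trans (le_max_left _ _)
    refine le_trans ?_ (le_max_right _ _)
    have hb : ∑ k ∈ Finset.range f.natDegree, ‖val p c (pt ζ R v) (f.coeff k)‖ ≤ B0 :=
      hB0 ⟨v, hv, rfl⟩
    have hM : 0 ≤ M := (norm_nonneg _).trans hz
    obtain ⟨m, hm⟩ : ∃ m, f.natDegree = m + 1 := ⟨f.natDegree - 1, by omega⟩
    have hFz : F v z = (∑ k ∈ Finset.range f.natDegree, val p c (pt ζ R v) (f.coeff k) * z ^ k) +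
        z ^ f.natDegree := by
      rw [hFsum, Finset.sum_range_succ]
      congr 1
      rw [Polynomial.Monic.coeff_natDegree hf, map_one, one_mul]
    have h1 : ‖z‖ ^ f.natDegree ≤ M + B0 * ‖z‖ ^ m := by
      have h2 : z ^ f.natDegree = F v z -
          ∑ k ∈ Finset.range f.natDegree, val p c (pt ζ R v) (f.coeff k) * z ^ k := by
        rw [hFz]; ring
      calc ‖z‖ ^ f.natDegree = ‖z ^ f.natDegree‖ := (norm_pow _ _).symm
        _ = ‖F v z - ∑ k ∈ Finset.range f.natDegree, val p c (pt ζ R v) (f.coeff k) * z ^ k‖ := by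
            rw [h2]
        _ ≤ ‖F v z‖ + ‖∑ k ∈ Finset.range f.natDegree, val p c (pt ζ R v) (f.coeff k) * z ^ k‖ :=
            norm_sub_le _ _
        _ ≤ M + ∑ k ∈ Finset.range f.natDegree, ‖val p c (pt ζ R v) (f.coeff k) * z ^ k‖ :=
            add_le_add hz (norm_sum_le _ _)
        _ ≤ M + ∑ k ∈ Finset.range f.natDegree, ‖val p c (pt ζ R v) (f.coeff k)‖ * ‖z‖ ^ m := by
            gcongr with k hk
            rw [norm_mul, norm_pow]
            have hk' := Finset.mem_range.mp hk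
            gcongr
            · exact h.le
            · omega
        _ = M + (∑ k ∈ Finset.range f.natDegree, ‖val p c (pt ζ R v) (f.coeff k)‖) * ‖z‖ ^ m := by
            rw [Finset.sum_mul]
        _ ≤ M + B0 * ‖z‖ ^ m := by gcongr
    have h3 : M ≤ M * ‖z‖ ^ m := by
      have : 1 ≤ ‖z‖ ^ m := one_le_pow₀ h.le
      nlinarith
    have h4 : ‖z‖ * ‖z‖ ^ m ≤ (M + B0) * ‖z‖ ^ m := by
      calc ‖z‖ * ‖z‖ ^ m = ‖z‖ ^ f.natDegree := by rw [hm]; ring
        _ ≤ M + B0 * ‖z‖ ^ m := h1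
        _ ≤ (M + B0) * ‖z‖ ^ m := by linarith
    exact le_of_mul_le_mul_right h4 (by positivity)
  have hsimple : ∀ v ∈ Ω, ∀ z, F v z = 0 → deriv (F v) z ≠ 0 := by
    intro v hv z hz hd
    have h1 : deriv (F v) z = ((Polynomial.derivative f).map (val p c (pt ζ R v))).eval z := by
      rw [← Polynomial.derivative_map]
      exact Polynomial.deriv _
    have h2 := congrArg (fun q => (Polynomial.map (val p c (pt ζ R v)) q).eval z) hUW
    simp only [Polynomial.map_add, Polynomial.map_mul, Polynomial.eval_add, Polynomial.eval_mul,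
      Polynomial.map_C, Polynomial.eval_C] at h2
    rw [h1] at hd
    have hz' : (f.map (val p c (pt ζ R v))).eval z = 0 := hz
    rw [hd, hz', mul_zero, mul_zero, add_zero] at h2
    exact hΔ v hv h2.symm
  obtain ⟨Z, hZ1, hZ2, hZ3, -⟩ := Pool.Agent.H713R3.ZA.ROOT.main Ω F hΩ hconv hcd.contDiffOn hprop
    hsimple w₀ hw₀ t₀ ht₀
  exact ⟨Z, hZ1, hZ2, hZ3⟩

end Pool.Agent.K3h53.UG
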