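import Pool.Agent.K3h53.UG.Stm3

/-! UG project (helper53, MP_209724_lc), brick DIR3. -/

set_option autoImplicit false

namespace Pool.Agent.K3h7.UG

open MvPolynomial Filter Topology Pool.Agent.K3h53.UG

variable {s : ℕ}

/-- the line `θ ↦ i ξ + θ u` -/
noncomputable def ln (ξ u : Fin s → ℝ) (j : Fin s) : Polynomial ℂ :=
  Polynomial.C (Complex.I * ξ j) + Polynomial.C (u j : ℂ) * Polynomial.X

/-- the restriction of a polynomial to the line -/
noncomputable def res (ξ u : Fin s → ℝ) (q : MvPolynomial (Fin s) ℂ) : Polynomial ℂ :=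
  aeval (ln ξ u) q

theorem eval_res (ξ u : Fin s → ℝ) (q : MvPolynomial (Fin s) ℂ) (θ : ℂ) :
    (res ξ u q).eval θ = eval (fun j => Complex.I * ξ j + θ * u j) q := by
  unfold res
  rw [← Polynomial.coe_aeval_eq_eval, ← AlgHom.comp_apply, MvPolynomial.comp_aeval,
    MvPolynomial.aeval_eq_eval]
  have e : (fun i => Polynomial.aeval θ (ln ξ u i)) =
      fun j => Complex.I * (ξ j : ℂ) + θ * u j := by
    funext j
    simp only [ln, Polynomial.aeval_def, Polynomial.eval₂_add, Polynomial.eval₂_mul,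
      Polynomial.eval₂_C, Polynomial.eval₂_X, Algebra.algebraMap_self, RingHom.id_apply]
    ring
  rw [e]

theorem deriv_res (ξ u : Fin s → ℝ) (q : MvPolynomial (Fin s) ℂ) :
    Polynomial.derivative (res ξ u q) = res ξ u (dd (fun j => (u j : ℂ)) q) := by
  unfold res dd
  induction q using MvPolynomial.induction_on with
  | C a => simp
  | add p q hp hq =>
    rw [map_add, Polynomial.derivative_add, hp, hq, ← map_add, ← Finset.sum_add_distrib]
    simp only [map_add, mul_add]
  | mul_X p i hp =>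
    rw [map_mul, Polynomial.derivative_mul, hp, aeval_X]
    have e1 : Polynomial.derivative (ln ξ u i) = Polynomial.C (u i : ℂ) := by
      simp [ln]
    have e2 : ∑ j, C (u j : ℂ) * pderiv j (p * X i) =
        (∑ j, C (u j : ℂ) * pderiv j p) * X i + p * C (u i : ℂ) := by
      simp only [pderiv_mul, mul_add, Finset.sum_add_distrib]
      congr 1
      · rw [Finset.sum_mul]
        exact Finset.sum_congr rfl fun j _ => by ring
      · rw [Finset.sum_eq_single i]
        · rw [pderiv_X_self]; ring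
        · intro j _ hj
          rw [pderiv_X_of_ne (Ne.symm hj)]; ring
        · intro h
          exact absurd (Finset.mem_univ _) h
    rw [e1, e2, map_add, map_mul, map_mul, aeval_X]
    simp [Polynomial.algebraMap_eq]

theorem eval_scale {q : MvPolynomial (Fin s) ℂ} {d : ℕ} (hq : q.IsHomogeneous d) (t : ℂ)
    (z : Fin s → ℂ) : eval (fun j => t * z j) q = t ^ d * eval z q := by
  rw [eval_eq', eval_eq', Finset.mul_sum]
  refine Finset.sum_congr rfl fun m hm => ?_
  have h1 : ∑ j, m j = d := by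
    have := hq (mem_support_iff.1 hm)
    rw [Finsupp.weight_apply] at this
    simpa [Finsupp.sum_fintype] using this
  simp only [mul_pow]
  rw [Finset.prod_mul_distrib, Finset.prod_pow_eq_pow_sum, h1]
  ring

theorem homog_dd {q : MvPolynomial (Fin s) ℂ} {d : ℕ} (hq : q.IsHomogeneous d) (u : Fin s → ℂ) :
    (dd u q).IsHomogeneous (d - 1) := by
  unfold dd
  refine IsHomogeneous.sum _ _ _ fun j _ => ?_
  have := (isHomogeneous_C (Fin s) (u j)).mul (hq.pderiv (i := j))
  simpa using this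

/-- a nonzero polynomial is not zero at all real points -/
theorem exists_real {p : MvPolynomial (Fin s) ℂ} (hp : p ≠ 0) :
    ∃ a : Fin s → ℝ, eval (fun j => (a j : ℂ)) p ≠ 0 := by
  by_contra h
  push Not at h
  apply hp
  refine MvPolynomial.funext_set (fun _ : Fin s => Set.range ((↑) : ℝ → ℂ))
    (fun _ => Set.infinite_range_of_injective Complex.ofReal_injective) fun x hx => ?_
  have h1 : ∀ j, ∃ a : ℝ, (a : ℂ) = x j := fun j => hx j (Set.mem_univ _)
  choose a ha using h1
  have e : x = fun j => (a j : ℂ) := funext fun j => (ha j).symm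
  rw [e, h a, map_zero]

/-- the final step -/
theorem fin_step {d N : ℕ} (q Q' : MvPolynomial (Fin s) ℂ) (u ξ : Fin s → ℝ)
    (hq : q.IsHomogeneous d) (hQ : Q'.IsHomogeneous N)
    (h0 : eval (fun j => Complex.I * ξ j) Q' ≠ 0)
    (h : ∀ M : ℝ, ∃ θ : ℂ, M < ‖θ‖ ∧ 0 < θ.re ∧ ((res ξ u q).eval θ).re = 0) :
    ∃ ζ : Fin s → ℂ, (∀ j, (ζ j).re = u j) ∧ (eval ζ q).re = 0 ∧ eval ζ Q' ≠ 0 := by
  have hR : res ξ u Q' ≠ 0 := by
    intro h1
    apply h0
    have := eval_res ξ u Q' 0
    rw [h1] at this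
    simpa using this.symm
  obtain ⟨M, hM⟩ : ∃ M : ℝ, ∀ θ : ℂ, (res ξ u Q').eval θ = 0 → ‖θ‖ ≤ M := by
    refine ⟨∑ x ∈ (res ξ u Q').roots.toFinset, ‖x‖, fun θ hθ => ?_⟩
    refine Finset.single_le_sum (f := fun x : ℂ => ‖x‖) (fun x _ => norm_nonneg x) ?_
    rw [Multiset.mem_toFinset, Polynomial.mem_roots hR]
    exact hθ
  obtain ⟨θ, h1, h2, h3⟩ := h M
  have hτ : ((θ.re : ℝ) : ℂ) ≠ 0 := by exact_mod_cast h2.ne'
  have key : ∀ (p : MvPolynomial (Fin s) ℂ) (k : ℕ), p.IsHomogeneous k →
      eval (fun j => ((θ.re : ℂ))⁻¹ * (Complex.I * ξ j + θ * u j)) p =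
      ((θ.re : ℂ))⁻¹ ^ k * (res ξ u p).eval θ := by
    intro p k hp
    rw [eval_scale hp, eval_res]
  refine ⟨fun j => ((θ.re : ℂ))⁻¹ * (Complex.I * ξ j + θ * u j), fun j => ?_, ?_, ?_⟩
  · rw [← Complex.ofReal_inv, Complex.re_ofReal_mul]
    simp only [Complex.add_re, Complex.mul_re, Complex.I_re, Complex.ofReal_re, Complex.I_im,
      Complex.ofReal_im, zero_mul, mul_zero, sub_zero, zero_add]
    field_simp
  · rw [key q d hq, ← Complex.ofReal_inv, ← Complex.ofReal_pow, Complex.re_ofReal_mul, h3,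
      mul_zero]
  · rw [key Q' N hQ]
    refine mul_ne_zero (pow_ne_zero _ (inv_ne_zero hτ)) fun h4 => ?_
    exact absurd (hM θ h4) (not_le.2 h1)

/-- the leading term -/
theorem lead_bound (P : Polynomial ℂ) : ∃ K : ℝ, 0 ≤ K ∧ ∀ θ : ℂ, 1 ≤ ‖θ‖ →
    ‖P.eval θ - P.leadingCoeff * θ ^ P.natDegree‖ * ‖θ‖ ≤ K * ‖θ‖ ^ P.natDegree := by
  refine ⟨∑ i ∈ Finset.range P.natDegree, ‖P.coeff i‖,
    Finset.sum_nonneg fun i _ => norm_nonneg _, fun θ hθ => ?_⟩
  rw [Polynomial.eval_eq_sum_range, Finset.sum_range_succ, Polynomial.coeff_natDegree,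
    add_sub_cancel_right]
  calc ‖∑ i ∈ Finset.range P.natDegree, P.coeff i * θ ^ i‖ * ‖θ‖
      ≤ (∑ i ∈ Finset.range P.natDegree, ‖P.coeff i * θ ^ i‖) * ‖θ‖ :=
        mul_le_mul_of_nonneg_right (norm_sum_le _ _) (norm_nonneg _)
    _ = ∑ i ∈ Finset.range P.natDegree, ‖P.coeff i‖ * ‖θ‖ ^ (i + 1) := by
        rw [Finset.sum_mul]
        refine Finset.sum_congr rfl fun i _ => ?_
        rw [norm_mul, norm_pow, pow_succ]
        ring
    _ ≤ ∑ i ∈ Finset.range P.natDegree, ‖P.coeff i‖ * ‖θ‖ ^ P.natDegree := by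
        refine Finset.sum_le_sum fun i hi => mul_le_mul_of_nonneg_left ?_ (norm_nonneg _)
        exact pow_le_pow_right₀ hθ (Finset.mem_range.1 hi)
    _ = _ := by rw [Finset.sum_mul]

/-- the sign along a ray -/
theorem ray_pos (P : Polynomial ℂ) (a : ℂ) (σ : ℝ) (hσ : |σ| ≤ 1)
    (ha : 0 < σ * (P.leadingCoeff * a ^ P.natDegree).re) :
    ∀ᶠ r : ℝ in atTop, 0 < σ * (P.eval (r * a)).re := by
  have ha0 : a ≠ 0 ∨ P.natDegree = 0 := by
    by_contra h
    push Not at h
    rw [h.1, zero_pow h.2, mul_zero, Complex.zero_re, mul_zero] at ha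
    exact lt_irrefl _ ha
  rcases ha0 with ha0 | hd
  · obtain ⟨K, hK, hb⟩ := lead_bound P
    have hna : 0 < ‖a‖ := norm_pos_iff.2 ha0
    set c := σ * (P.leadingCoeff * a ^ P.natDegree).re with hc
    filter_upwards [eventually_ge_atTop (1 / ‖a‖), eventually_gt_atTop 0,
      eventually_gt_atTop (K * ‖a‖ ^ P.natDegree / (c * ‖a‖))] with r h1 h2 h3
    have h4 : ‖(r : ℂ) * a‖ = r * ‖a‖ := by
      rw [norm_mul, Complex.norm_real, Real.norm_eq_abs, abs_of_pos h2]
    have h5 : 1 ≤ ‖(r : ℂ) * a‖ := by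
      rw [h4]
      rw [div_le_iff₀ hna] at h1
      exact h1
    have h6 := hb _ h5
    set E : ℂ := P.eval ((r : ℂ) * a) - P.leadingCoeff * ((r : ℂ) * a) ^ P.natDegree with hE
    have h7 : P.eval ((r : ℂ) * a) = ((r ^ P.natDegree : ℝ) : ℂ) *
        (P.leadingCoeff * a ^ P.natDegree) + E := by
      rw [hE, mul_pow]
      push_cast
      ring
    rw [h7, Complex.add_re, Complex.re_ofReal_mul, mul_add]
    have h8 : σ * (r ^ P.natDegree * (P.leadingCoeff * a ^ P.natDegree).re) =
        r ^ P.natDegree * c := by rw [hc]; ring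
    rw [h8]
    have h9 : |σ * E.re| ≤ ‖E‖ := by
      rw [abs_mul]
      calc |σ| * |E.re| ≤ 1 * ‖E‖ :=
            mul_le_mul hσ (Complex.abs_re_le_norm E) (abs_nonneg _) zero_le_one
        _ = ‖E‖ := one_mul _
    have h10 : ‖E‖ < r ^ P.natDegree * c := by
      rw [h4] at h6
      have h11 : 0 < r * ‖a‖ := mul_pos h2 hna
      have h12 : K * (r * ‖a‖) ^ P.natDegree < r ^ P.natDegree * c * (r * ‖a‖) := by
        rw [div_lt_iff₀ (mul_pos ha hna)] at h3
        rw [mul_pow]
        have h13 : 0 < r ^ P.natDegree := pow_pos h2 _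
        nlinarith [mul_lt_mul_of_pos_left h3 h13]
      exact lt_of_mul_lt_mul_right (h6.trans_lt h12) h11.le
    have h11 := neg_abs_le (σ * E.re)
    linarith
  · filter_upwards with r
    have h1 : P = Polynomial.C P.leadingCoeff := by
      rw [Polynomial.leadingCoeff, hd]
      exact Polynomial.eq_C_of_natDegree_eq_zero hd
    rw [hd, pow_zero, mul_one] at ha
    rw [h1, Polynomial.eval_C]
    exact ha

/-- a power of a number with positive real part in a given half plane -/
theorem exists_dir (c : ℂ) (hc : c ≠ 0) (e : ℕ) (he : 2 ≤ e) :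
    ∃ a : ℂ, 0 < a.re ∧ 0 < (c * a ^ e).re := by
  obtain ⟨w, hw, hcw⟩ : ∃ w : ℂ, w ∈ Complex.slitPlane ∧ 0 < (c * w).re := by
    by_cases h : (starRingEnd ℂ) c ∈ Complex.slitPlane
    · refine ⟨_, h, ?_⟩
      rw [Complex.mul_conj, Complex.ofReal_re]
      exact Complex.normSq_pos.2 hc
    · rw [Complex.mem_slitPlane_iff] at h
      push Not at h
      obtain ⟨h1, h2⟩ := h
      rw [Complex.conj_re] at h1
      rw [Complex.conj_im, neg_eq_zero] at h2
      refine ⟨-1 + Complex.I, ?_, ?_⟩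
      · rw [Complex.mem_slitPlane_iff]
        right
        simp
      · have h3 : c.re ≠ 0 := fun h3 => hc (Complex.ext h3 h2)
        have h4 : c.re < 0 := lt_of_le_of_ne h1 h3
        simp [Complex.mul_re, h2]
        linarith
  have hw0 : w ≠ 0 := Complex.slitPlane_ne_zero hw
  have he0 : (e : ℂ) ≠ 0 := by exact_mod_cast (by omega : e ≠ 0)
  refine ⟨Complex.exp (Complex.log w / e), ?_, ?_⟩
  · rw [Complex.exp_re]
    refine mul_pos (Real.exp_pos _) (Real.cos_pos_of_mem_Ioo ?_)
    have h1 : (Complex.log w / e).im = Complex.arg w / e := by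
      rw [← Complex.log_im, ← Complex.ofReal_natCast, Complex.div_ofReal_im]
    rw [h1]
    have h2 : |Complex.arg w| < Real.pi := by
      rw [abs_lt]
      refine ⟨Complex.neg_pi_lt_arg w, lt_of_le_of_ne (Complex.arg_le_pi w) ?_⟩
      exact (Complex.mem_slitPlane_iff_arg.1 hw).1
    obtain ⟨h3, h4⟩ := abs_lt.1 h2
    have he2 : (2 : ℝ) ≤ e := by exact_mod_cast he
    have hep : (0 : ℝ) < e := by linarith
    have hpi := Real.pi_pos
    constructor
    · rw [lt_div_iff₀ hep]
      nlinarith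
    · rw [div_lt_iff₀ hep]
      nlinarith
  · rw [← Complex.exp_nat_mul, mul_div_cancel₀ _ he0, Complex.exp_log hw0]
    exact hcw

/-- polynomials of degree at least two -/
theorem zeros_deg_two (P : Polynomial ℂ) (hP : 2 ≤ P.natDegree) (M : ℝ) :
    ∃ θ : ℂ, M < ‖θ‖ ∧ 0 < θ.re ∧ (P.eval θ).re = 0 := by
  have hP0 : P ≠ 0 := by
    rintro rfl
    simp at hP
  have hc : P.leadingCoeff ≠ 0 := Polynomial.leadingCoeff_ne_zero.2 hP0
  obtain ⟨a, ha, ha'⟩ := exists_dir P.leadingCoeff hc _ hP
  obtain ⟨b, hb, hb'⟩ := exists_dir (-P.leadingCoeff) (neg_ne_zero.2 hc) _ hP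
  have e1 := ray_pos P a 1 (by simp) (by rw [one_mul]; exact ha')
  have e2 := ray_pos P b (-1) (by simp) (by
    rw [neg_mul, one_mul, ← Complex.neg_re, ← neg_mul]; exact hb')
  set κ := min a.re b.re with hκ
  have hκ0 : 0 < κ := lt_min ha hb
  obtain ⟨r, h1, h2, h3, h4⟩ := (e1.and (e2.and ((eventually_gt_atTop (M / κ)).and
    (eventually_gt_atTop 0)))).exists
  have hcont : ContinuousOn (fun t : ℝ => (P.eval ((r : ℂ) * ((1 - t : ℝ) * a + (t : ℝ) * b))).re)
      (Set.Icc 0 1) := by
    apply Continuous.continuousOn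
    refine Complex.continuous_re.comp ((Polynomial.continuous P).comp ?_)
    fun_prop
  obtain ⟨t, ht, ht'⟩ : ∃ t ∈ Set.Icc (0 : ℝ) 1,
      (P.eval ((r : ℂ) * ((1 - t : ℝ) * a + (t : ℝ) * b))).re = 0 := by
    have := intermediate_value_Icc' (zero_le_one) hcont
    refine this ⟨?_, ?_⟩
    · have e : ((r : ℂ) * ((1 - 1 : ℝ) * a + (1 : ℝ) * b)) = r * b := by
        push_cast; ring
      simp only [e]
      linarith
    · have e : ((r : ℂ) * ((1 - 0 : ℝ) * a + (0 : ℝ) * b)) = r * a := by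
        push_cast; ring
      simp only [e]
      linarith
  have hre : r * κ ≤ ((r : ℂ) * ((1 - t : ℝ) * a + (t : ℝ) * b)).re := by
    rw [Complex.re_ofReal_mul, Complex.add_re, Complex.re_ofReal_mul, Complex.re_ofReal_mul]
    refine mul_le_mul_of_nonneg_left ?_ h4.le
    have h5 : κ ≤ a.re := min_le_left _ _
    have h6 : κ ≤ b.re := min_le_right _ _
    nlinarith [mul_le_mul_of_nonneg_left h5 (by linarith [ht.2] : (0 : ℝ) ≤ 1 - t),
      mul_le_mul_of_nonneg_left h6 ht.1]
  refine ⟨_, ?_, ?_, ht'⟩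
  · rw [div_lt_iff₀ hκ0] at h3
    calc M < r * κ := h3
      _ ≤ _ := hre
      _ ≤ _ := (le_abs_self _).trans (Complex.abs_re_le_norm _)
  · exact (mul_pos h4 hκ0).trans_le hre

theorem t_DIR3 : S_DIR3 := by
  intro s d q u hq hd hDq hcase Q e hQ hQh
  set D : MvPolynomial (Fin s) ℂ → MvPolynomial (Fin s) ℂ := dd (fun j => (u j : ℂ)) with hD
  have hD1 : (D q).IsHomogeneous (d - 1) := homog_dd hq _
  have hQ'h : (D q * Q).IsHomogeneous (d - 1 + e) := hD1.mul hQh
  have hQ' : D q * Q ≠ 0 := mul_ne_zero hDq hQ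
  have hI : ∀ (p : MvPolynomial (Fin s) ℂ) (k : ℕ), p.IsHomogeneous k → ∀ ξ : Fin s → ℝ,
      eval (fun j => Complex.I * ξ j) p = Complex.I ^ k * eval (fun j => (ξ j : ℂ)) p :=
    fun p k hp ξ => eval_scale hp _ _
  have hIne : ∀ k : ℕ, Complex.I ^ k ≠ 0 := fun k => pow_ne_zero _ Complex.I_ne_zero
  suffices h : ∃ ξ : Fin s → ℝ, eval (fun j => (ξ j : ℂ)) (D q * Q) ≠ 0 ∧
      ∀ M : ℝ, ∃ θ : ℂ, M < ‖θ‖ ∧ 0 < θ.re ∧ ((res ξ u q).eval θ).re = 0 by
    obtain ⟨ξ, h1, h2⟩ := h
    obtain ⟨ζ, h3, h4, h5⟩ := fin_step q (D q * Q) u ξ hq hQ'h (by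
      rw [hI _ _ hQ'h]
      exact mul_ne_zero (hIne _) h1) h2
    rw [map_mul] at h5
    exact ⟨ζ, h3, h4, left_ne_zero_of_mul h5, right_ne_zero_of_mul h5⟩
  by_cases hDD : D (D q) = 0
  swap
  · -- case A
    have hDDh : (D (D q)).IsHomogeneous (d - 1 - 1) := homog_dd hD1 _
    obtain ⟨ξ, hξ⟩ := exists_real (mul_ne_zero hQ' hDD)
    rw [map_mul] at hξ
    refine ⟨ξ, left_ne_zero_of_mul hξ, fun M => zeros_deg_two _ ?_ M⟩
    by_contra hlt
    push Not at hlt
    have h1 : Polynomial.derivative (Polynomial.derivative (res ξ u q)) = 0 := by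
      have h2 : (Polynomial.derivative (res ξ u q)).natDegree = 0 := by
        have := Polynomial.natDegree_derivative_le (res ξ u q)
        omega
      rw [Polynomial.eq_C_of_natDegree_eq_zero h2, Polynomial.derivative_C]
    rw [deriv_res, deriv_res] at h1
    have h2 := eval_res ξ u (D (D q)) 0
    have h3 : res ξ u (D (D q)) = 0 := h1
    rw [h3, Polynomial.eval_zero] at h2
    apply right_ne_zero_of_mul hξ
    have h4 := hI _ _ hDDh ξ
    simp only [zero_mul, add_zero] at h2
    rw [← h2] at h4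
    exact (mul_eq_zero.1 h4.symm).resolve_left (hIne _)
  · -- case B
    obtain ⟨m₀, hm₀⟩ : ∃ m, (Complex.I ^ (d - 1) * coeff m q).im ≠ 0 := by
      rcases hcase with h | h
      · exact absurd hDD h
      · exact h
    -- the imaginary part
    obtain ⟨r₂, hr₂⟩ : ∃ r₂ : MvPolynomial (Fin s) ℂ, r₂ =
        ∑ m ∈ q.support, monomial m (((Complex.I ^ (d - 1) * coeff m q).im : ℝ) : ℂ) := ⟨_, rfl⟩
    have hr₂0 : r₂ ≠ 0 := by
      intro h
      apply hm₀
      have h1 : coeff m₀ r₂ = 0 := by rw [h, coeff_zero]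
      rw [hr₂, coeff_sum] at h1
      simp only [coeff_monomial] at h1
      rw [Finset.sum_ite_eq' q.support m₀] at h1
      by_cases h2 : m₀ ∈ q.support
      · rw [if_pos h2] at h1
        exact_mod_cast h1
      · rw [notMem_support_iff.1 h2, mul_zero, Complex.zero_im]
    have hr₂e : ∀ ξ : Fin s → ℝ, eval (fun j => (ξ j : ℂ)) r₂ =
        (((Complex.I ^ (d - 1) * eval (fun j => (ξ j : ℂ)) q).im : ℝ) : ℂ) := by
      intro ξ
      rw [hr₂, map_sum, eval_eq', Finset.mul_sum, Complex.im_sum, Complex.ofReal_sum]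
      refine Finset.sum_congr rfl fun m _ => ?_
      rw [eval_monomial, Finsupp.prod_fintype _ _ (fun j => pow_zero _)]
      have e : ∏ j, ((ξ j : ℂ)) ^ m j = ((∏ j, ξ j ^ m j : ℝ) : ℂ) := by push_cast; rfl
      rw [e, ← mul_assoc, Complex.im_mul_ofReal]
      push_cast
      ring
    obtain ⟨ξ, hξ⟩ := exists_real (mul_ne_zero hQ' hr₂0)
    rw [map_mul] at hξ
    have hξ1 := left_ne_zero_of_mul hξ
    have hξ2 := right_ne_zero_of_mul hξ
    rw [hr₂e] at hξ2
    have hξ2' : (Complex.I ^ (d - 1) * eval (fun j => (ξ j : ℂ)) q).im ≠ 0 := by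
      exact_mod_cast hξ2
    -- the restriction to lines is linear
    have hlin : ∀ (η : Fin s → ℝ) (θ : ℂ), (res η u q).eval θ =
        Complex.I ^ d * eval (fun j => (η j : ℂ)) q +
        θ * (Complex.I ^ (d - 1) * eval (fun j => (η j : ℂ)) (D q)) := by
      intro η θ
      have h1 : Polynomial.derivative (res η u (D q)) = 0 := by
        rw [deriv_res]
        have : dd (fun j => (u j : ℂ)) (D q) = 0 := hDD
        rw [this]
        unfold res
        rw [map_zero]
      have h2 : res η u (D q) = Polynomial.C (Complex.I ^ (d - 1) *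
          eval (fun j => (η j : ℂ)) (D q)) := by
        have h3 := Polynomial.derivative_eq_zero.1 h1
        rw [Polynomial.eq_C_of_natDegree_eq_zero h3, Polynomial.coeff_zero_eq_eval_zero,
          eval_res]
        simp only [zero_mul, add_zero]
        rw [hI _ _ hD1]
      set c := Complex.I ^ (d - 1) * eval (fun j => (η j : ℂ)) (D q) with hc
      have h4 : Polynomial.derivative (res η u q - Polynomial.C c * Polynomial.X) = 0 := by
        rw [Polynomial.derivative_sub, deriv_res]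
        have : res η u (dd (fun j => (u j : ℂ)) q) = Polynomial.C c := h2
        rw [this]
        simp
      have h5 := Polynomial.derivative_eq_zero.1 h4
      have h6 := Polynomial.eq_C_of_natDegree_eq_zero h5
      have h7 : res η u q = Polynomial.C ((res η u q - Polynomial.C c * Polynomial.X).coeff 0) +
          Polynomial.C c * Polynomial.X := by
        rw [← h6]; ring
      have h8 : (res η u q - Polynomial.C c * Polynomial.X).coeff 0 =
          Complex.I ^ d * eval (fun j => (η j : ℂ)) q := by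
        rw [Polynomial.coeff_zero_eq_eval_zero, Polynomial.eval_sub, eval_res]
        simp only [zero_mul, add_zero, Polynomial.eval_mul, Polynomial.eval_X, mul_zero,
          sub_zero]
        exact hI _ _ hq η
      rw [h7, h8]
      simp
      ring
    have hId : Complex.I ^ d = Complex.I * Complex.I ^ (d - 1) := by
      rw [← pow_succ', Nat.sub_add_cancel (by omega)]
    have hre : ∀ (η : Fin s → ℝ) (θ : ℂ), ((res η u q).eval θ).re =
        -(Complex.I ^ (d - 1) * eval (fun j => (η j : ℂ)) q).im +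
        (θ * (Complex.I ^ (d - 1) * eval (fun j => (η j : ℂ)) (D q))).re := by
      intro η θ
      rw [hlin, hId, mul_assoc, Complex.add_re]
      congr 1
      rw [Complex.mul_re, Complex.I_re, Complex.I_im]
      ring
    have hξ3 : Complex.I ^ (d - 1) * eval (fun j => (ξ j : ℂ)) (D q) ≠ 0 := by
      rw [map_mul] at hξ1
      exact mul_ne_zero (hIne _) (left_ne_zero_of_mul hξ1)
    set a := Complex.I ^ (d - 1) * eval (fun j => (ξ j : ℂ)) (D q) with ha
    set ρ := (Complex.I ^ (d - 1) * eval (fun j => (ξ j : ℂ)) q).im with hρ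
    by_cases him : a.im = 0
    swap
    · refine ⟨ξ, hξ1, fun M => ?_⟩
      refine ⟨⟨|M| + 1, (a.re * (|M| + 1) - ρ) / a.im⟩, ?_, by positivity, ?_⟩
      · have h1 := Complex.abs_re_le_norm
          (⟨|M| + 1, (a.re * (|M| + 1) - ρ) / a.im⟩ : ℂ)
        have h2 : |M| + 1 ≤ |(|M| + 1)| := le_abs_self _
        have h3 := le_abs_self M
        simp only at h1
        linarith
      · rw [hre, ← ha, ← hρ, Complex.mul_re]
        simp only
        field_simp
        ring
    · have hare : a.re ≠ 0 := fun h => hξ3 (Complex.ext h him)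
      -- the sign
      have hscale : ∀ (p : MvPolynomial (Fin s) ℂ) (k : ℕ), p.IsHomogeneous k →
          eval (fun j => (((-ξ j : ℝ)) : ℂ)) p = (-1) ^ k * eval (fun j => (ξ j : ℂ)) p := by
        intro p k hp
        rw [← eval_scale hp]
        congr 2
        ext j
        push_cast
        ring
      rcases lt_or_gt_of_ne (div_ne_zero hξ2' hare) with hneg | hpos
      · -- use -ξ
        refine ⟨fun j => -ξ j, ?_, fun M => ?_⟩
        · rw [hscale _ _ hQ'h]
          exact mul_ne_zero (pow_ne_zero _ (by norm_num)) hξ1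
        · refine ⟨⟨-(ρ / a.re), |M| + 1⟩, ?_, ?_, ?_⟩
          · have h1 := Complex.abs_im_le_norm (⟨-(ρ / a.re), |M| + 1⟩ : ℂ)
            have h2 : |M| + 1 ≤ |(|M| + 1)| := le_abs_self _
            have h3 := le_abs_self M
            simp only at h1
            linarith
          · simp only
            linarith
          · rw [hre, hscale _ _ hq, hscale _ _ hD1]
            have e1 : Complex.I ^ (d - 1) * ((-1) ^ d * eval (fun j => (ξ j : ℂ)) q) =
                (((-1 : ℝ) ^ d : ℝ) : ℂ) * (Complex.I ^ (d - 1) * eval (fun j => (ξ j : ℂ)) q) := by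
              push_cast; ring
            have e2 : Complex.I ^ (d - 1) * ((-1) ^ (d - 1) * eval (fun j => (ξ j : ℂ)) (D q)) =
                (((-1 : ℝ) ^ (d - 1) : ℝ) : ℂ) * a := by
              rw [ha]; push_cast; ring
            rw [e1, e2, Complex.im_ofReal_mul, ← hρ, Complex.mul_re, Complex.re_ofReal_mul,
              Complex.im_ofReal_mul, him]
            have e3 : (-1 : ℝ) ^ d = -(-1 : ℝ) ^ (d - 1) := by
              have : d = (d - 1) + 1 := by omega
              conv_lhs => rw [this]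
              rw [pow_succ]
              ring
            rw [e3]
            simp only
            field_simp
            ring
      · refine ⟨ξ, hξ1, fun M => ?_⟩
        refine ⟨⟨ρ / a.re, |M| + 1⟩, ?_, hpos, ?_⟩
        · have h1 := Complex.abs_im_le_norm (⟨ρ / a.re, |M| + 1⟩ : ℂ)
          have h2 : |M| + 1 ≤ |(|M| + 1)| := le_abs_self _
          have h3 := le_abs_self M
          simp only at h1
          linarith
        · rw [hre, ← ha, ← hρ, Complex.mul_re, him]
          simp only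
          field_simp
          ring

end Pool.Agent.K3h7.UG
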